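import Pool.Agent.H90.FsD

namespace Pool.Agent.Results.MP_f0f681_an.NotConj

open Pool.Agent.H90.FS

/-- For the free group on 8 generators there is a weak* closed, translation invariant (even unital)
subalgebra of the Fourier-Stieltjes algebra that is not closed under complex conjugation. -/
theorem result : ∃ B : Subalgebra ℂ (FreeGroup (Fin 8) → ℂ),
    (B : Set (FreeGroup (Fin 8) → ℂ)) ⊆ BG (FreeGroup (Fin 8)) ∧
    WeakStarClosed (B : Set (FreeGroup (Fin 8) → ℂ)) ∧
    TranslationInvariant (B : Set (FreeGroup (Fin 8) → ℂ)) ∧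
    ¬ ConjClosed (B : Set (FreeGroup (Fin 8) → ℂ)) := main

end Pool.Agent.Results.MP_f0f681_an.NotConj
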